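import Pool.Agent.Run7.h345.StrOdd

set_option autoImplicit false
open Real Set MeasureTheory Filter Topology

namespace Pool.Agent.Run7.h345.Ell

variable {h : ℝ → ℝ} {s1 r R : ℝ}

/-- square of the even part -/
noncomputable def HH (h : ℝ → ℝ) (θ : ℝ) : ℝ := ev h θ ^ 2

/-- the symmetric difference quotient -/
noncomputable def DD (h : ℝ → ℝ) (s θ : ℝ) : ℝ := (HH h (θ + s) - HH h (θ - s)) / sin (2 * s)

theorem ev_continuous (hcont : Continuous h) : Continuous (ev h) := by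
  unfold ev; fun_prop

theorem HH_continuous (hcont : Continuous h) : Continuous (HH h) := by
  unfold HH
  exact (ev_continuous hcont).pow 2

theorem DD_continuous (hcont : Continuous h) (s : ℝ) : Continuous (DD h s) := by
  have := HH_continuous hcont
  unfold DD
  fun_prop

theorem even_est (hr : 0 < r) (hlow : ∀ θ, r ≤ h θ) (hup : ∀ θ, h θ ≤ R)
    (hs1' : 0 ≤ s1) (lev : Lev h s1)
    {a b : ℝ} (hodd : ∀ θ, od h θ = a * cos θ + b * sin θ) {s : ℝ} (hs : s1 < s) (hs2 : s < π / 2)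
    (θ δ : ℝ) :
    sin δ * DD h s θ - δ ^ 2 * (R / cos s) ^ 2 ≤ HH h (θ + δ) - HH h θ := by
  have hpi := Real.pi_pos
  have hR : 0 < R := lt_of_lt_of_le hr ((hlow 0).trans (hup 0))
  have hs0 : 0 < s := lt_of_le_of_lt hs1' hs
  have hcos : 0 < cos s := Real.cos_pos_of_mem_Ioo ⟨by linarith, hs2⟩
  have hsin : 0 < sin s := Real.sin_pos_of_pos_of_lt_pi hs0 (by linarith)
  obtain ⟨g, c, hg0, hg1, hg2, hg3, hg4⟩ := lev s hs hs2 θ
  set Mθ := (g θ + g (θ + π)) / 2 with hMθ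
  have hgθ : g θ = Mθ + od h θ := by
    have := hg1 θ
    rw [hMθ]; unfold od; linarith
  set φ := θ + δ with hφ
  have k := hg4 φ
  rw [show φ - θ = δ by rw [hφ]; ring] at k
  set Mφ := (g φ + g (φ + π)) / 2 with hMφ
  have hgφ : g φ = Mφ + od h φ := by
    have := hg1 φ
    rw [hMφ]; unfold od; linarith
  have hMM : Mφ ^ 2 - Mθ ^ 2 = HH h φ - HH h θ := by
    unfold HH
    rw [hMφ, hMθ, hg2 φ, hg2 θ]; unfold ev; ring
  have hMpos : 0 < Mθ := by rw [hMθ]; linarith [hg0 θ, hg0 (θ + π)]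
  have hMval : Mθ = (ev h (θ + s) + ev h (θ - s)) / (2 * cos s) := by
    have e1 : g θ * (2 * cos s) = h (θ + s) + h (θ - s) := by
      rw [hg3]; field_simp
    rw [eq_div_iff (by positivity)]
    have e2 : od h (θ + s) + od h (θ - s) = 2 * cos s * od h θ := by
      simp only [hodd, Real.cos_add, Real.cos_sub, Real.sin_add, Real.sin_sub]; ring
    have e3 := ev_add_od h (θ + s)
    have e4 := ev_add_od h (θ - s)
    rw [hgθ] at e1
    linear_combination e1 + e2 - e3 - e4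
  set q := (ev h (θ + s) - ev h (θ - s)) / (2 * sin s) with hq
  have hpval : (h (θ + s) - h (θ - s)) / (2 * sin s) = q + (b * cos θ - a * sin θ) := by
    rw [hq, ← ev_add_od h (θ + s), ← ev_add_od h (θ - s), hodd, hodd, Real.cos_add, Real.cos_sub,
      Real.sin_add, Real.sin_sub]
    field_simp
    ring
  rw [hpval, hgθ, hgφ] at k
  have hoφ : od h φ = cos δ * od h θ + sin δ * (b * cos θ - a * sin θ) := by
    rw [hφ, hodd, hodd, Real.cos_add, Real.sin_add]; ring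
  rw [hoφ] at k
  have k2 : cos δ * Mθ + sin δ * q ≤ Mφ := by linarith
  have hD : DD h s θ = 2 * Mθ * q := by
    unfold DD HH
    rw [hMval, hq, Real.sin_two_mul]
    field_simp
    ring
  have hMle : Mθ ≤ R / cos s := by
    rw [hMval, div_le_div_iff₀ (by positivity) hcos]
    have a1 := ev_le hup (θ + s)
    have a2 := ev_le hup (θ - s)
    nlinarith
  have hM2 : Mθ ^ 2 ≤ (R / cos s) ^ 2 := pow_le_pow_left₀ hMpos.le hMle 2
  have hc : 1 - cos δ ≤ δ ^ 2 / 2 := by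
    have := Real.one_sub_sq_div_two_le_cos (x := δ)
    linarith
  have h1 : 2 * Mθ * (Mφ - Mθ) ≤ Mφ ^ 2 - Mθ ^ 2 := by nlinarith [sq_nonneg (Mφ - Mθ)]
  have h2 : 2 * Mθ * (cos δ * Mθ + sin δ * q - Mθ) ≤ 2 * Mθ * (Mφ - Mθ) :=
    mul_le_mul_of_nonneg_left (by linarith) (by linarith)
  have h3 : 2 * Mθ * (cos δ * Mθ + sin δ * q - Mθ) = sin δ * DD h s θ - 2 * (1 - cos δ) * Mθ ^ 2 := by
    rw [hD]; ring
  have h4 : 2 * (1 - cos δ) * Mθ ^ 2 ≤ δ ^ 2 * (R / cos s) ^ 2 := by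
    calc 2 * (1 - cos δ) * Mθ ^ 2 ≤ δ ^ 2 * Mθ ^ 2 :=
          mul_le_mul_of_nonneg_right (by linarith) (sq_nonneg _)
      _ ≤ _ := mul_le_mul_of_nonneg_left hM2 (sq_nonneg _)
  rw [← hMM]
  linarith

theorem even_deriv (hr : 0 < r) (hlow : ∀ θ, r ≤ h θ) (hup : ∀ θ, h θ ≤ R)
    (hs1' : 0 ≤ s1) (lev : Lev h s1) (hcont : Continuous h)
    {a b : ℝ} (hodd : ∀ θ, od h θ = a * cos θ + b * sin θ) {s : ℝ} (hs : s1 < s) (hs2 : s < π / 2)
    (θ : ℝ) : HasDerivAt (HH h) (DD h s θ) θ := by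
  have hR : 0 < R := lt_of_lt_of_le hr ((hlow 0).trans (hup 0))
  have hs0 : 0 < s := lt_of_le_of_lt hs1' hs
  have hcos : 0 < cos s := Real.cos_pos_of_mem_Ioo ⟨by linarith, hs2⟩
  set F : ℝ → ℝ := fun φ => HH h φ - sin (φ - θ) * DD h s θ with hF
  have hF0 : HasDerivAt F 0 θ := by
    rw [hasDerivAt_iff_isLittleO, Asymptotics.isLittleO_iff]
    intro ε hε
    have e1 : ∀ᶠ φ in 𝓝 θ, |DD h s φ - DD h s θ| < ε / 2 := by
      have := Metric.tendsto_nhds.1 ((DD_continuous hcont s).tendsto θ) (ε / 2) (by positivity)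
      simpa only [Real.dist_eq] using this
    have e2 : ∀ᶠ φ in 𝓝 θ, |φ - θ| < ε / (2 * (R / cos s) ^ 2) := by
      rw [Metric.eventually_nhds_iff]
      exact ⟨ε / (2 * (R / cos s) ^ 2), by positivity, fun y hy => by rwa [Real.dist_eq] at hy⟩
    filter_upwards [e1, e2] with φ h1 h2
    have k1 := even_est hr hlow hup hs1' lev hodd hs hs2 θ (φ - θ)
    have k2 := even_est hr hlow hup hs1' lev hodd hs hs2 φ (θ - φ)
    rw [show θ + (φ - θ) = φ by ring] at k1
    rw [show φ + (θ - φ) = θ by ring] at k2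
    have hs' : sin (θ - φ) = - sin (φ - θ) := by
      rw [← Real.sin_neg]; congr 1; ring
    rw [hs', show (θ - φ) ^ 2 = (φ - θ) ^ 2 by ring] at k2
    have h3 : (φ - θ) ^ 2 * (R / cos s) ^ 2 ≤ ε / 2 * |φ - θ| := by
      rw [lt_div_iff₀ (by positivity)] at h2
      rw [← sq_abs (φ - θ)]
      nlinarith [abs_nonneg (φ - θ)]
    have h4 : |sin (φ - θ) * (DD h s φ - DD h s θ)| ≤ |φ - θ| * (ε / 2) := by
      rw [abs_mul]
      exact mul_le_mul Real.abs_sin_le_abs h1.le (abs_nonneg _) (abs_nonneg _)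
    have h5 := abs_le.1 h4
    have h6 : 0 ≤ ε / 2 * |φ - θ| := by positivity
    have hFθ : F θ = HH h θ := by simp [hF]
    simp only [smul_zero, sub_zero, Real.norm_eq_abs, hFθ]
    rw [abs_le]
    constructor
    · simp only [hF]; linarith
    · simp only [hF]; nlinarith [h5.2]
  have h2 : HasDerivAt (fun φ => F φ + sin (φ - θ) * DD h s θ)
      (0 + cos (θ - θ) * DD h s θ) θ := by
    apply hF0.add
    apply HasDerivAt.mul_const
    exact (Real.hasDerivAt_sin (θ - θ)).comp_sub_const θ θ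
  have e : (fun φ => F φ + sin (φ - θ) * DD h s θ) = HH h := by
    funext φ; simp only [hF]; ring
  rw [e] at h2
  simpa using h2

/-- the functional-differential equation forces a trigonometric polynomial of degree two -/
theorem ode {H : ℝ → ℝ} {D : ℝ → ℝ} (hs1' : 0 ≤ s1) (hs1 : s1 < π / 2)
    (hD : ∀ θ, HasDerivAt H (D θ) θ)
    (hrel : ∀ s, s1 < s → s < π / 2 → ∀ θ, D θ * sin (2 * s) = H (θ + s) - H (θ - s)) :
    ∃ α β γ : ℝ, ∀ θ, H θ = α + β * cos (2 * θ) + γ * sin (2 * θ) := by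
  have hpi := Real.pi_pos
  -- a fixed parameter
  obtain ⟨s, hs, hs2⟩ := exists_between hs1
  have hs0 : 0 < s := lt_of_le_of_lt hs1' hs
  have hsin : 0 < sin (2 * s) := Real.sin_pos_of_pos_of_lt_pi (by linarith) (by linarith)
  have hHs : ∀ θ t : ℝ, HasDerivAt (fun x => H (x + t)) (D (θ + t)) θ := fun θ t =>
    (hD (θ + t)).comp_add_const θ t
  -- D is differentiable
  set D1 : ℝ → ℝ := fun θ => (D (θ + s) - D (θ - s)) / sin (2 * s) with hD1
  have hDD : ∀ θ, HasDerivAt D (D1 θ) θ := by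
    intro θ
    have e : D = fun x => (H (x + s) - H (x + -s)) / sin (2 * s) := by
      funext x
      rw [eq_div_iff hsin.ne', hrel s hs hs2 x, ← sub_eq_add_neg x s]
    have := ((hHs θ s).sub (hHs θ (-s))).div_const (sin (2 * s))
    rw [← sub_eq_add_neg θ s] at this
    have e2 : HasDerivAt (fun x => (H (x + s) - H (x + -s)) / sin (2 * s)) (D1 θ) θ := this
    rwa [← e] at e2
  have hDs : ∀ θ t : ℝ, HasDerivAt (fun x => D (x + t)) (D1 (θ + t)) θ := fun θ t =>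
    (hDD (θ + t)).comp_add_const θ t
  set D2 : ℝ → ℝ := fun θ => (D1 (θ + s) - D1 (θ - s)) / sin (2 * s) with hD2
  have hDD1 : ∀ θ, HasDerivAt D1 (D2 θ) θ := by
    intro θ
    have := ((hDs θ s).sub (hDs θ (-s))).div_const (sin (2 * s))
    rw [← sub_eq_add_neg θ s] at this
    have e : (fun x => (D (x + s) - D (x + -s)) / sin (2 * s)) = D1 := by
      funext x; simp only [hD1, ← sub_eq_add_neg]
    have e2 : HasDerivAt (fun x => (D (x + s) - D (x + -s)) / sin (2 * s)) (D2 θ) θ := this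
    rwa [e] at e2
  -- derivative in s
  have hs_deriv : ∀ t, s1 < t → t < π / 2 → ∀ θ, 2 * cos (2 * t) * D θ = D (θ + t) + D (θ - t) := by
    intro t ht ht2 θ
    have l : HasDerivAt (fun u => D θ * sin (2 * u)) (D θ * (cos (2 * t) * 2)) t := by
      have h1 : HasDerivAt (fun u : ℝ => 2 * u) 2 t := by
        simpa using (hasDerivAt_id t).const_mul (2:ℝ)
      exact ((h1.sin)).const_mul (D θ)
    have rr : HasDerivAt (fun u => H (θ + u) - H (θ - u)) (D (θ + t) - (-D (θ - t))) t := by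
      exact ((hD (θ + t)).comp_const_add θ t).sub ((hD (θ - t)).comp_const_sub θ t)
    have ev1 : (fun u => D θ * sin (2 * u)) =ᶠ[𝓝 t] (fun u => H (θ + u) - H (θ - u)) := by
      filter_upwards [Ioo_mem_nhds ht ht2] with u hu
      exact hrel u hu.1 hu.2 θ
    have := (rr.congr_of_eventuallyEq ev1).unique l
    linarith
  have hs_deriv2 : ∀ t, s1 < t → t < π / 2 → ∀ θ, -4 * sin (2 * t) * D θ = D1 (θ + t) - D1 (θ - t) := by
    intro t ht ht2 θ
    have l : HasDerivAt (fun u => 2 * cos (2 * u) * D θ) (2 * (-sin (2 * t) * 2) * D θ) t := by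
      have h1 : HasDerivAt (fun u : ℝ => 2 * u) 2 t := by
        simpa using (hasDerivAt_id t).const_mul (2:ℝ)
      exact ((h1.cos).const_mul 2).mul_const (D θ)
    have rr : HasDerivAt (fun u => D (θ + u) + D (θ - u)) (D1 (θ + t) + (-D1 (θ - t))) t := by
      exact ((hDD (θ + t)).comp_const_add θ t).add ((hDD (θ - t)).comp_const_sub θ t)
    have ev1 : (fun u => 2 * cos (2 * u) * D θ) =ᶠ[𝓝 t] (fun u => D (θ + u) + D (θ - u)) := by
      filter_upwards [Ioo_mem_nhds ht ht2] with u hu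
      exact hs_deriv u hu.1 hu.2 θ
    have := (rr.congr_of_eventuallyEq ev1).unique l
    linarith
  have hD2' : ∀ θ, D2 θ = -4 * D θ := by
    intro θ
    simp only [hD2]
    rw [← hs_deriv2 s hs hs2 θ]
    field_simp
  have hDD1' : ∀ θ, HasDerivAt D1 (-4 * D θ) θ := fun θ => hD2' θ ▸ hDD1 θ
  have hc2 : ∀ θ : ℝ, HasDerivAt (fun t : ℝ => cos (2 * t)) (-sin (2 * θ) * 2) θ := by
    intro θ
    have h1 : HasDerivAt (fun u : ℝ => 2 * u) 2 θ := by
      simpa using (hasDerivAt_id θ).const_mul (2:ℝ)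
    exact h1.cos
  have hs2' : ∀ θ : ℝ, HasDerivAt (fun t : ℝ => sin (2 * t)) (cos (2 * θ) * 2) θ := by
    intro θ
    have h1 : HasDerivAt (fun u : ℝ => 2 * u) 2 θ := by
      simpa using (hasDerivAt_id θ).const_mul (2:ℝ)
    exact h1.sin
  have hu : ∀ θ, HasDerivAt (fun t => D t * cos (2 * t) - D1 t * sin (2 * t) / 2) 0 θ := by
    intro θ
    have := ((hDD θ).mul (hc2 θ)).sub (((hDD1' θ).mul (hs2' θ)).div_const 2)
    exact this.congr_deriv (by ring)
  have hv : ∀ θ, HasDerivAt (fun t => D t * sin (2 * t) + D1 t * cos (2 * t) / 2) 0 θ := by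
    intro θ
    have := ((hDD θ).mul (hs2' θ)).add (((hDD1' θ).mul (hc2 θ)).div_const 2)
    exact this.congr_deriv (by ring)
  obtain ⟨u, hu'⟩ : ∃ u, ∀ θ, D θ * cos (2 * θ) - D1 θ * sin (2 * θ) / 2 = u :=
    ⟨_, fun θ => is_const_of_deriv_eq_zero (fun t => (hu t).differentiableAt)
      (fun t => (hu t).deriv) θ 0⟩
  obtain ⟨v, hv'⟩ : ∃ v, ∀ θ, D θ * sin (2 * θ) + D1 θ * cos (2 * θ) / 2 = v :=
    ⟨_, fun θ => is_const_of_deriv_eq_zero (fun t => (hv t).differentiableAt)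
      (fun t => (hv t).deriv) θ 0⟩
  have hDform : ∀ θ, D θ = u * cos (2 * θ) + v * sin (2 * θ) := by
    intro θ
    rw [← hu' θ, ← hv' θ]
    have := Real.sin_sq_add_cos_sq (2 * θ)
    linear_combination (- D θ) * this
  have hw : ∀ θ, HasDerivAt (fun t => H t - u / 2 * sin (2 * t) + v / 2 * cos (2 * t)) 0 θ := by
    intro θ
    have := ((hD θ).sub ((hs2' θ).const_mul (u / 2))).add ((hc2 θ).const_mul (v / 2))
    refine this.congr_deriv ?_
    rw [hDform θ]; ring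
  obtain ⟨w, hw'⟩ : ∃ w, ∀ θ, H θ - u / 2 * sin (2 * θ) + v / 2 * cos (2 * θ) = w :=
    ⟨_, fun θ => is_const_of_deriv_eq_zero (fun t => (hw t).differentiableAt)
      (fun t => (hw t).deriv) θ 0⟩
  refine ⟨w, -(v / 2), u / 2, ?_⟩
  intro θ
  rw [← hw' θ]; ring

/-- the support function is that of an ellipse -/
theorem solve (hr : 0 < r) (hlow : ∀ θ, r ≤ h θ) (hup : ∀ θ, h θ ≤ R)
    (hlip : ∀ θ φ, |h θ - h φ| ≤ R * |θ - φ|) (hper : ∀ θ, h (θ + 2 * π) = h θ)
    (hs1' : 0 ≤ s1) (hs1 : s1 < π / 2) (lev : Lev h s1) (hcont : Continuous h) :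
    ∃ a b c v w : ℝ, 0 < a ∧ b ^ 2 < a * c ∧
      ∀ θ, h θ = √(a * cos θ ^ 2 + 2 * b * cos θ * sin θ + c * sin θ ^ 2)
        + (v * cos θ + w * sin θ) := by
  obtain ⟨v, w, hodd⟩ := odd_form hr hlow hup hlip hper hs1 lev hs1' hcont
  obtain ⟨s, hs, hs2⟩ := exists_between hs1
  have hder : ∀ t, s1 < t → t < π / 2 → ∀ θ, HasDerivAt (HH h) (DD h t θ) θ :=
    fun t ht ht2 θ => even_deriv hr hlow hup hs1' lev hcont hodd ht ht2 θ
  obtain ⟨α, β, γ, hH⟩ := ode (H := HH h) (D := DD h s) hs1' hs1 (hder s hs hs2) (by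
    intro t ht ht2 θ
    have : DD h s θ = DD h t θ := (hder s hs hs2 θ).unique (hder t ht ht2 θ)
    rw [this]
    unfold DD
    have ht0 : 0 < t := lt_of_le_of_lt hs1' ht
    have hsin : 0 < sin (2 * t) := Real.sin_pos_of_pos_of_lt_pi (by linarith) (by linarith)
    rw [div_mul_cancel₀ _ hsin.ne'])
  have hform : ∀ θ, HH h θ = (α + β) * cos θ ^ 2 + 2 * γ * cos θ * sin θ + (α - β) * sin θ ^ 2 := by
    intro θ
    rw [hH θ, Real.cos_two_mul', Real.sin_two_mul]
    have := Real.sin_sq_add_cos_sq θ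
    linear_combination (-α) * this
  have hpos : ∀ θ, 0 < HH h θ := fun θ => pow_pos (ev_pos hr hlow θ) 2
  have ha : 0 < α + β := by
    have := hpos 0
    rw [hform] at this
    simpa using this
  refine ⟨α + β, γ, α - β, v, w, ha, ?_, ?_⟩
  · obtain ⟨θ, h1, h2⟩ := Pool.Agent.R763.Str.exists_polar (-γ) (α + β)
    set ρ := √((-γ) ^ 2 + (α + β) ^ 2) with hρ
    have h3 := hpos θ
    rw [hform] at h3
    have hρpos : 0 < ρ := by
      rw [hρ]; apply Real.sqrt_pos.2; positivity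
    have h4 : 0 < ρ ^ 2 * ((α + β) * cos θ ^ 2 + 2 * γ * cos θ * sin θ + (α - β) * sin θ ^ 2) := by
      positivity
    have h5 : ρ ^ 2 * ((α + β) * cos θ ^ 2 + 2 * γ * cos θ * sin θ + (α - β) * sin θ ^ 2)
        = (α + β) * (ρ * cos θ) ^ 2 + 2 * γ * (ρ * cos θ) * (ρ * sin θ)
          + (α - β) * (ρ * sin θ) ^ 2 := by ring
    rw [h5, ← h1, ← h2] at h4
    have h6 : 0 < (α + β) * ((α + β) * (α - β) - γ ^ 2) := by nlinarith
    have := (mul_pos_iff_of_pos_left ha).1 h6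
    linarith
  · intro θ
    rw [← hform θ]
    unfold HH
    rw [Real.sqrt_sq (ev_pos hr hlow θ).le, ← hodd θ, ev_add_od]

end Pool.Agent.Run7.h345.Ell
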