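import Pool.Agent.Run7.h345.StrEven

set_option autoImplicit false
open Real Set MeasureTheory Filter Topology
open Pool.Agent.R763.Str

namespace Pool.Agent.Run7.h345.Ell

/-- lower triangular linear automorphism of the plane -/
noncomputable def tri (p q r : ℝ) (hp : p ≠ 0) (hr : r ≠ 0) : E2 ≃ₗ[ℝ] E2 where
  toFun x := !₂[p * x 0, q * x 0 + r * x 1]
  invFun y := !₂[y 0 / p, (y 1 - q * (y 0 / p)) / r]
  map_add' x y := by
    ext i
    fin_cases i
    · simp; ring
    · simp; ring
  map_smul' c x := by
    ext i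
    fin_cases i
    · simp; ring
    · simp; ring
  left_inv x := by
    ext i
    fin_cases i
    · simp; field_simp
    · simp; field_simp; ring
  right_inv x := by
    ext i
    fin_cases i
    · simp; field_simp
    · simp; field_simp; ring

theorem tri_zero (p q r : ℝ) (hp : p ≠ 0) (hr : r ≠ 0) (x : E2) : tri p q r hp hr x 0 = p * x 0 := rfl

theorem tri_one (p q r : ℝ) (hp : p ≠ 0) (hr : r ≠ 0) (x : E2) :
    tri p q r hp hr x 1 = q * x 0 + r * x 1 := rfl

theorem ellipse {K : Set E2} (hK : IsCompact K) (hc : Convex ℝ K) (hne : K.Nonempty)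
    {a b c v w : ℝ} (ha : 0 < a) (hb : b ^ 2 < a * c)
    (h : ∀ θ, hs K θ = √(a * cos θ ^ 2 + 2 * b * cos θ * sin θ + c * sin θ ^ 2)
        + (v * cos θ + w * sin θ)) :
    ∃ f : E2 ≃ᵃ[ℝ] E2, K = f '' Metric.closedBall 0 1 := by
  have hd : 0 < c - b ^ 2 / a := by
    have : b ^ 2 / a < c := by
      rw [div_lt_iff₀ ha]; linarith
    linarith
  set p := √a with hp
  have hp0 : 0 < p := Real.sqrt_pos.2 ha
  have hp2 : p ^ 2 = a := Real.sq_sqrt ha.le
  set d := √(c - b ^ 2 / a) with hdd
  have hd0 : 0 < d := Real.sqrt_pos.2 hd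
  have hd2 : d ^ 2 = c - b ^ 2 / a := Real.sq_sqrt hd.le
  set q := b / p with hq
  have hq2 : q ^ 2 = b ^ 2 / a := by rw [hq, div_pow, hp2]
  have hpq : p * q = b := by rw [hq]; field_simp
  -- the quadratic form
  have hform : ∀ θ, a * cos θ ^ 2 + 2 * b * cos θ * sin θ + c * sin θ ^ 2
      = (p * cos θ + q * sin θ) ^ 2 + (d * sin θ) ^ 2 := by
    intro θ
    have : c = q ^ 2 + d ^ 2 := by rw [hq2, hd2]; ring
    rw [this, ← hpq, ← hp2]; ring
  refine ⟨(tri p q d hp0.ne' hd0.ne').toAffineEquiv.trans (AffineEquiv.constVAdd ℝ E2 !₂[v, w]), ?_⟩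
  have hf : ∀ x : E2, ((tri p q d hp0.ne' hd0.ne').toAffineEquiv.trans
      (AffineEquiv.constVAdd ℝ E2 !₂[v, w])) x = !₂[v, w] + tri p q d hp0.ne' hd0.ne' x := fun x => rfl
  ext x
  rw [mem_iff hK hc hne]
  constructor
  · intro hx
    set y : E2 := (tri p q d hp0.ne' hd0.ne').symm (x - !₂[v, w]) with hy
    have hy' : tri p q d hp0.ne' hd0.ne' y = x - !₂[v, w] := by
      rw [hy, LinearEquiv.apply_symm_apply]
    refine ⟨y, ?_, ?_⟩
    · rw [mem_closedBall_zero_iff]
      have hx0 : x 0 - v = p * y 0 := by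
        have := congrArg (fun z : E2 => z 0) hy'
        simp only [tri_zero] at this
        rw [this]; simp
      have hx1 : x 1 - w = q * y 0 + d * y 1 := by
        have := congrArg (fun z : E2 => z 1) hy'
        simp only [tri_one] at this
        rw [this]; simp
      -- direction A^{-T} y
      obtain ⟨θ, h0, h1⟩ := exists_polar ((y 0 - q * (y 1 / d)) / p) (y 1 / d)
      set ρ := √(((y 0 - q * (y 1 / d)) / p) ^ 2 + (y 1 / d) ^ 2) with hρ
      have hρ0 : 0 ≤ ρ := Real.sqrt_nonneg _
      have e1 : ρ * (p * cos θ + q * sin θ) = y 0 := by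
        calc ρ * (p * cos θ + q * sin θ) = p * (ρ * cos θ) + q * (ρ * sin θ) := by ring
          _ = y 0 := by rw [← h0, ← h1]; field_simp; ring
      have e2 : ρ * (d * sin θ) = y 1 := by
        calc ρ * (d * sin θ) = d * (ρ * sin θ) := by ring
          _ = y 1 := by rw [← h1]; field_simp
      have hn : ‖y‖ ^ 2 = y 0 ^ 2 + y 1 ^ 2 := norm_sq_eq y
      have hx' := hx θ
      rw [h θ, hform θ] at hx'
      have h3 : pr x θ - (v * cos θ + w * sin θ) = (x 0 - v) * cos θ + (x 1 - w) * sin θ := by
        unfold pr; ring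
      have h4 : (x 0 - v) * cos θ + (x 1 - w) * sin θ
          ≤ √((p * cos θ + q * sin θ) ^ 2 + (d * sin θ) ^ 2) := by linarith
      have h5 : ρ * √((p * cos θ + q * sin θ) ^ 2 + (d * sin θ) ^ 2) = ‖y‖ := by
        have : ρ = √(ρ ^ 2) := (Real.sqrt_sq hρ0).symm
        rw [this, ← Real.sqrt_mul (sq_nonneg ρ)]
        rw [show ρ ^ 2 * ((p * cos θ + q * sin θ) ^ 2 + (d * sin θ) ^ 2)
          = (ρ * (p * cos θ + q * sin θ)) ^ 2 + (ρ * (d * sin θ)) ^ 2 by ring, e1, e2, ← hn]
        exact Real.sqrt_sq (norm_nonneg _)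
      have h6 : ρ * ((x 0 - v) * cos θ + (x 1 - w) * sin θ) = ‖y‖ ^ 2 := by
        rw [hx0, hx1, hn]
        calc ρ * (p * y 0 * cos θ + (q * y 0 + d * y 1) * sin θ)
            = y 0 * (ρ * (p * cos θ + q * sin θ)) + y 1 * (ρ * (d * sin θ)) := by ring
          _ = _ := by rw [e1, e2]; ring
      have h7 := mul_le_mul_of_nonneg_left h4 hρ0
      rw [h5, h6] at h7
      by_contra hcon
      push Not at hcon
      nlinarith
    · rw [hf, hy']; abel
  · rintro ⟨y, hy, rfl⟩ θ
    rw [mem_closedBall_zero_iff] at hy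
    rw [hf, pr_add, h θ, hform θ]
    have h1 : pr !₂[v, w] θ = v * cos θ + w * sin θ := by simp [pr]
    rw [h1]
    have h2 : pr (tri p q d hp0.ne' hd0.ne' y) θ
        = y 0 * (p * cos θ + q * sin θ) + y 1 * (d * sin θ) := by
      simp only [pr, tri_zero, tri_one]; ring
    have hn : ‖y‖ ^ 2 = y 0 ^ 2 + y 1 ^ 2 := norm_sq_eq y
    have h3 : y 0 * (p * cos θ + q * sin θ) + y 1 * (d * sin θ)
        ≤ √((p * cos θ + q * sin θ) ^ 2 + (d * sin θ) ^ 2) := by
      apply Real.le_sqrt_of_sq_le
      have : y 0 ^ 2 + y 1 ^ 2 ≤ 1 := by rw [← hn]; nlinarith [norm_nonneg y]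
      set A := p * cos θ + q * sin θ
      set B := d * sin θ
      nlinarith [sq_nonneg (y 0 * B - y 1 * A), sq_nonneg A, sq_nonneg B,
        mul_le_mul_of_nonneg_right this (add_nonneg (sq_nonneg A) (sq_nonneg B))]
    linarith

/-- the frozen hypothesis gives the analytic one, after centring -/
theorem hyp_of {K : Set E2} (hK : IsCompact K) (hc : Convex ℝ K) {x0 : E2} (hx0 : x0 ∈ interior K)
    (H : ∀ ℓ1 : ℝ, (MeasureTheory.Measure.hausdorffMeasure 1 (frontier K)).toReal < ℓ1 →
        ∀ ℓ2 : ℝ,
          (MeasureTheory.Measure.hausdorffMeasure 1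
              (frontier {x : E2 |
                (MeasureTheory.Measure.hausdorffMeasure 1
                  (frontier (convexHull ℝ (insert x K)))).toReal ≤ ℓ1})).toReal < ℓ2 →
          ∃ ℓ3 : ℝ,
            {y : E2 |
              (MeasureTheory.Measure.hausdorffMeasure 1
                (frontier (convexHull ℝ (insert y
                  {x : E2 |
                    (MeasureTheory.Measure.hausdorffMeasure 1
                      (frontier (convexHull ℝ (insert x K)))).toReal ≤ ℓ1})))).toReal = ℓ2}
            = {y : E2 |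
              (MeasureTheory.Measure.hausdorffMeasure 1
                (frontier (convexHull ℝ (insert y K)))).toReal = ℓ3}) :
    Hyp ((fun x => x + -x0) '' K) := by
  have hint : (interior K).Nonempty := ⟨x0, hx0⟩
  have hne : K.Nonempty := hint.mono interior_subset
  set K' : Set E2 := (fun x => x + -x0) '' K with hK'
  have hK'c : IsCompact K' := hK.image (by fun_prop)
  have hK'ne : K'.Nonempty := hne.image _
  have hh : Continuous (hs K) := hs_continuous hK hne
  have hh' : Continuous (hs K') := hs_continuous hK'c hK'ne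
  have h0 : (0 : E2) ∈ interior K' := by
    set f : E2 ≃ᵢ E2 := IsometryEquiv.addRight (-x0) with hf
    have := f.toHomeomorph.image_interior K
    show (0 : E2) ∈ interior (f.toHomeomorph '' K)
    rw [← this]
    exact ⟨x0, hx0, by simp [hf]⟩
  obtain ⟨r, hr, hlow⟩ := pos_of_interior hK'c h0
  have hnn : ∀ θ, 0 ≤ hs K' θ := fun θ => hr.le.trans (hlow θ)
  have hsK' : hs K' = fun θ => hs K θ + pr (-x0) θ := by
    funext θ; exact hs_translate hK hne (-x0) θ
  have hFF : ∀ x : E2, FF (hs K') (x + -x0) = FF (hs K) x := by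
    intro x; rw [hsK']; exact FF_translate hh x (-x0)
  have hFF' : ∀ x : E2, FF (hs K') x = FF (hs K) (x + x0) := by
    intro x; rw [← hFF (x + x0)]; congr 1; simp
  have hWK : W K' = W K := W_translate hK hne (-x0)
  intro l hl x y hxy hx
  set L' : Set E2 := LL (hs K') l with hL'
  have hL'c : IsCompact L' := LL_compact hh' (hs_periodic K') hnn l
  have hL'conv : Convex ℝ L' := LL_convex hh' l
  have hL'0 : (0 : E2) ∈ interior L' := LL_interior hh' hnn hl
  have hL'ne : L'.Nonempty := ⟨0, interior_subset hL'0⟩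
  set L : Set E2 := {x : E2 | (MeasureTheory.Measure.hausdorffMeasure 1
                  (frontier (convexHull ℝ (insert x K)))).toReal ≤ l} with hL
  have hLL : L = (fun x => x + x0) '' L' := by
    ext z
    constructor
    · intro hz
      refine ⟨z + -x0, ?_, by simp⟩
      show FF (hs K') (z + -x0) ≤ l
      rw [hFF, ← perim_hull hK hc hint z]
      exact hz
    · rintro ⟨z', hz', rfl⟩
      show (MeasureTheory.Measure.hausdorffMeasure 1
                  (frontier (convexHull ℝ (insert (z' + x0) K)))).toReal ≤ l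
      rw [perim_hull hK hc hint, ← hFF']
      exact hz'
  have hLc : IsCompact L := by rw [hLL]; exact hL'c.image (by fun_prop)
  have hLconv : Convex ℝ L := by
    rw [hLL]
    have e : (fun x : E2 => x + x0) = (fun x => x0 + x) := by
      funext y; exact add_comm _ _
    rw [e]; exact hL'conv.translate x0
  have hLint : (interior L).Nonempty := by
    set f : E2 ≃ᵢ E2 := IsometryEquiv.addRight x0 with hf
    have := f.toHomeomorph.image_interior L'
    rw [hLL]
    show (interior (f.toHomeomorph '' L')).Nonempty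
    rw [← this]
    exact ⟨f.toHomeomorph 0, 0, hL'0, rfl⟩
  have hsL : hs L = fun θ => hs L' θ + pr x0 θ := by
    funext θ; rw [hLL]; exact hs_translate hL'c hL'ne x0 θ
  have hWL : W L = W L' := by rw [hLL]; exact W_translate hL'c hL'ne x0
  have hFL : ∀ z : E2, FF (hs L) (z + x0) = FF (hs L') z := by
    intro z; rw [hsL]; exact FF_translate (hs_continuous hL'c hL'ne) z x0
  have hperK : (MeasureTheory.Measure.hausdorffMeasure 1 (frontier K)).toReal < l := by
    have := perim_toReal hK hc hint
    rw [this, ← hWK]; exact hl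
  have hperL : (MeasureTheory.Measure.hausdorffMeasure 1 (frontier L)).toReal < FF (hs L') x := by
    have := perim_toReal hLc hLconv hLint
    rw [this, hWL]; exact hx
  obtain ⟨l3, hl3⟩ := H l hperK (FF (hs L') x) hperL
  have hx3 : x + x0 ∈ {y : E2 |
              (MeasureTheory.Measure.hausdorffMeasure 1
                (frontier (convexHull ℝ (insert y K)))).toReal = l3} := by
    rw [← hl3]
    show (MeasureTheory.Measure.hausdorffMeasure 1
      (frontier (convexHull ℝ (insert (x + x0) L)))).toReal = FF (hs L') x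
    rw [perim_hull hLc hLconv hLint, hFL]
  have hy3 : y + x0 ∈ {y : E2 |
              (MeasureTheory.Measure.hausdorffMeasure 1
                (frontier (convexHull ℝ (insert y K)))).toReal = l3} := by
    rw [← hl3]
    show (MeasureTheory.Measure.hausdorffMeasure 1
      (frontier (convexHull ℝ (insert (y + x0) L)))).toReal = FF (hs L') x
    rw [perim_hull hLc hLconv hLint, hFL, hxy]
  have e1 : FF (hs K) (x + x0) = l3 := by
    rw [← perim_hull hK hc hint]; exact hx3
  have e2 : FF (hs K) (y + x0) = l3 := by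
    rw [← perim_hull hK hc hint]; exact hy3
  rw [hFF' x, hFF' y, e1, e2]

theorem main {K : Set E2} (hK : IsCompact K) (hc : Convex ℝ K) (hint : (interior K).Nonempty)
    (H : ∀ ℓ1 : ℝ, (MeasureTheory.Measure.hausdorffMeasure 1 (frontier K)).toReal < ℓ1 →
        ∀ ℓ2 : ℝ,
          (MeasureTheory.Measure.hausdorffMeasure 1
              (frontier {x : E2 |
                (MeasureTheory.Measure.hausdorffMeasure 1
                  (frontier (convexHull ℝ (insert x K)))).toReal ≤ ℓ1})).toReal < ℓ2 →
          ∃ ℓ3 : ℝ,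
            {y : E2 |
              (MeasureTheory.Measure.hausdorffMeasure 1
                (frontier (convexHull ℝ (insert y
                  {x : E2 |
                    (MeasureTheory.Measure.hausdorffMeasure 1
                      (frontier (convexHull ℝ (insert x K)))).toReal ≤ ℓ1})))).toReal = ℓ2}
            = {y : E2 |
              (MeasureTheory.Measure.hausdorffMeasure 1
                (frontier (convexHull ℝ (insert y K)))).toReal = ℓ3}) :
    ∃ f : E2 ≃ᵃ[ℝ] E2, K = f '' Metric.closedBall 0 1 := by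
  obtain ⟨x0, hx0⟩ := hint
  have hne : K.Nonempty := ⟨x0, interior_subset hx0⟩
  have hyp := hyp_of hK hc hx0 H
  set K' : Set E2 := (fun x => x + -x0) '' K with hK'
  have hK'c : IsCompact K' := hK.image (by fun_prop)
  have hK'ne : K'.Nonempty := hne.image _
  have h0 : (0 : E2) ∈ interior K' := by
    set f : E2 ≃ᵢ E2 := IsometryEquiv.addRight (-x0) with hf
    have := f.toHomeomorph.image_interior K
    show (0 : E2) ∈ interior (f.toHomeomorph '' K)
    rw [← this]
    exact ⟨x0, hx0, by simp [hf]⟩
  obtain ⟨r, hr, hlow⟩ := pos_of_interior hK'c h0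
  obtain ⟨R, hR⟩ := hK'c.isBounded.subset_closedBall 0
  have hup : ∀ θ, hs K' θ ≤ R := by
    intro θ
    apply hs_le hK'c hK'ne
    intro y hy
    exact (pr_le_norm y θ).trans (by simpa using hR hy)
  obtain ⟨s1, hs1, hs1', hlev⟩ := level hK'c h0 hyp
  obtain ⟨a, b, c, v, w, ha, hb, hform⟩ := solve (h := hs K') hr hlow hup (hs_lip hK'c hK'ne hR)
    (hs_periodic K') hs1 hs1' hlev (hs_continuous hK'c hK'ne)
  apply ellipse hK hc hne ha hb (v := v + x0 0) (w := w + x0 1)
  intro θ
  have e := hs_translate hK hne (-x0) θ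
  have e2 : hs K θ = hs K' θ - pr (-x0) θ := by
    rw [hK', e]; ring
  rw [e2, hform θ]
  simp only [pr, PiLp.neg_apply]
  ring

end Pool.Agent.Run7.h345.Ell
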