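import Pool.Agent.R763.StrLevel

set_option autoImplicit false
open Real Set MeasureTheory Filter Topology

namespace Pool.Agent.Run7.h345.Ell

/-- even part of a function on the circle -/
noncomputable def ev (h : ℝ → ℝ) (θ : ℝ) : ℝ := (h θ + h (θ + π)) / 2

/-- odd part of a function on the circle -/
noncomputable def od (h : ℝ → ℝ) (θ : ℝ) : ℝ := (h θ - h (θ + π)) / 2

theorem ev_add_od (h : ℝ → ℝ) (θ : ℝ) : ev h θ + od h θ = h θ := by
  unfold ev od; ring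

theorem ev_add_pi {h : ℝ → ℝ} (hper : ∀ θ, h (θ + 2 * π) = h θ) (θ : ℝ) :
    ev h (θ + π) = ev h θ := by
  unfold ev
  rw [show θ + π + π = θ + 2 * π by ring, hper]; ring

theorem od_add_pi {h : ℝ → ℝ} (hper : ∀ θ, h (θ + 2 * π) = h θ) (θ : ℝ) :
    od h (θ + π) = - od h θ := by
  unfold od
  rw [show θ + π + π = θ + 2 * π by ring, hper]; ring

/-- the output of the level set analysis, as a property of the support function -/
def Lev (h : ℝ → ℝ) (s1 : ℝ) : Prop :=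
  ∀ s, s1 < s → s < π / 2 → ∀ θ : ℝ, ∃ g : ℝ → ℝ, ∃ c : ℝ,
      (∀ φ, 0 < g φ) ∧ (∀ φ, g φ - g (φ + π) = h φ - h (φ + π)) ∧
      (∀ φ, ((g φ + g (φ + π)) / 2) ^ 2 = ((h φ + h (φ + π)) / 2) ^ 2 + c) ∧
      (g θ = (h (θ + s) + h (θ - s)) / (2 * cos s)) ∧
      (∀ φ, cos (φ - θ) * g θ + sin (φ - θ) * ((h (θ + s) - h (θ - s)) / (2 * sin s)) ≤ g φ)

variable {h : ℝ → ℝ} {s1 r R : ℝ}

theorem ev_lip (hlip : ∀ θ φ, |h θ - h φ| ≤ R * |θ - φ|) (θ φ : ℝ) :
    |ev h θ - ev h φ| ≤ R * |θ - φ| := by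
  have a := abs_le.1 (hlip θ φ)
  have b := abs_le.1 (hlip (θ + π) (φ + π))
  rw [show θ + π - (φ + π) = θ - φ by ring] at b
  unfold ev
  rw [abs_le]
  constructor <;> linarith [a.1, a.2, b.1, b.2]

theorem ev_pos (hr : 0 < r) (hlow : ∀ θ, r ≤ h θ) (θ : ℝ) : 0 < ev h θ := by
  unfold ev
  linarith [hlow θ, hlow (θ + π)]

theorem ev_le (hup : ∀ θ, h θ ≤ R) (θ : ℝ) : ev h θ ≤ R := by
  unfold ev
  linarith [hup θ, hup (θ + π)]

theorem evsq_lip (hr : 0 < r) (hlow : ∀ θ, r ≤ h θ) (hup : ∀ θ, h θ ≤ R)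
    (hlip : ∀ θ φ, |h θ - h φ| ≤ R * |θ - φ|) (θ φ : ℝ) :
    |ev h θ ^ 2 - ev h φ ^ 2| ≤ (2 * R ^ 2) * |θ - φ| := by
  have h1 := ev_lip hlip θ φ
  have h2 := ev_pos hr hlow θ
  have h3 := ev_pos hr hlow φ
  have h4 := ev_le hup θ
  have h5 := ev_le hup φ
  rw [show ev h θ ^ 2 - ev h φ ^ 2 = (ev h θ + ev h φ) * (ev h θ - ev h φ) by ring, abs_mul,
    abs_of_pos (by linarith)]
  calc (ev h θ + ev h φ) * |ev h θ - ev h φ| ≤ (2 * R) * (R * |θ - φ|) := by
        apply mul_le_mul (by linarith) h1 (abs_nonneg _) (by linarith)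
    _ = _ := by ring

/-- One-sided estimate of the odd part. -/
theorem odd_est (hr : 0 < r) (hlow : ∀ θ, r ≤ h θ) (hup : ∀ θ, h θ ≤ R)
    (hlip : ∀ θ φ, |h θ - h φ| ≤ R * |θ - φ|) (hper : ∀ θ, h (θ + 2 * π) = h θ)
    (hs1 : s1 < π / 2) (lev : Lev h s1) (hs1' : 0 ≤ s1) (hcont : Continuous h)
    (θ : ℝ) {ε : ℝ} (hε : 0 < ε) :
    ∃ η, 0 < η ∧ ∀ δ, |δ| < η →
      -(ε * |δ|) ≤ od h (θ + δ) - cos δ * od h θ - sin δ * od h (θ + π / 2) := by
  have hpi := Real.pi_pos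
  have hR : 0 < R := lt_of_lt_of_le hr ((hlow 0).trans (hup 0))
  -- continuity of the slopes at s = π/2
  set p : ℝ → ℝ := fun s => (h (θ + s) - h (θ - s)) / (2 * sin s) with hp
  have hpc : ContinuousAt p (π / 2) := by
    apply ContinuousAt.div
    · fun_prop
    · fun_prop
    · simp
  have hpv : p (π / 2) = od h (θ + π / 2) := by
    simp only [hp, od, Real.sin_pi_div_two]
    have : h (θ + π / 2 + π) = h (θ - π / 2) := by
      rw [← hper (θ - π / 2)]; congr 1; ring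
    rw [this]; ring
  set κ : ℝ := min 1 (r / (R + 8 * R ^ 2 / ε + 1)) with hκ
  have hκpos : 0 < κ := by
    apply lt_min one_pos
    positivity
  have e1 : ∀ᶠ s in 𝓝[<] (π / 2), |p s - od h (θ + π / 2)| < ε / 4 := by
    have := (Metric.tendsto_nhds.1 hpc.tendsto (ε / 4) (by positivity))
    rw [hpv] at this
    filter_upwards [this.filter_mono nhdsWithin_le_nhds] with s hs
    rwa [Real.dist_eq] at hs
  have e2 : ∀ᶠ s in 𝓝[<] (π / 2), cos s < κ := by
    have hc : ContinuousAt cos (π / 2) := Real.continuous_cos.continuousAt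
    have : ∀ᶠ s in 𝓝 (π / 2), cos s < κ := by
      apply hc.eventually_lt continuousAt_const
      rw [Real.cos_pi_div_two]; exact hκpos
    exact this.filter_mono nhdsWithin_le_nhds
  have e3 : ∀ᶠ s in 𝓝[<] (π / 2), s1 < s ∧ s < π / 2 := Ioo_mem_nhdsLT hs1
  obtain ⟨s, ha, hb, hc1, hc2⟩ := (e1.and (e2.and e3)).exists
  obtain ⟨g, c, hg0, hg1, hg2, hg3, hg4⟩ := lev s hc1 hc2 θ
  have hcos : 0 < cos s := Real.cos_pos_of_mem_Ioo ⟨by linarith, hc2⟩
  set Mθ := (g θ + g (θ + π)) / 2 with hMθ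
  have hgθ : g θ = Mθ + od h θ := by
    have := hg1 θ
    rw [hMθ]; unfold od; linarith
  have hodle : od h θ ≤ R := by
    unfold od
    linarith [hup θ, hlow (θ + π)]
  -- lower bound for Mθ
  have hgbig : R + 8 * R ^ 2 / ε + 1 ≤ g θ := by
    rw [hg3, le_div_iff₀ (by positivity)]
    have k1 : cos s < r / (R + 8 * R ^ 2 / ε + 1) := lt_of_lt_of_le hb (min_le_right _ _)
    rw [lt_div_iff₀ (by positivity)] at k1
    have a := hlow (θ + s)
    have b := hlow (θ - s)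
    nlinarith
  have hMbig : 8 * R ^ 2 / ε + 1 ≤ Mθ := by linarith
  have hMpos : 0 < Mθ := by
    have : 0 ≤ 8 * R ^ 2 / ε := by positivity
    linarith
  refine ⟨ε / (2 * (Mθ + 1)), by positivity, ?_⟩
  intro δ hδ
  have hδ' : |δ| * (2 * (Mθ + 1)) < ε := (lt_div_iff₀ (by positivity)).1 hδ
  set φ := θ + δ with hφ
  have k := hg4 φ
  rw [show φ - θ = δ by rw [hφ]; ring] at k
  set Mφ := (g φ + g (φ + π)) / 2 with hMφ
  have hMφpos : 0 < Mφ := by rw [hMφ]; linarith [hg0 φ, hg0 (φ + π)]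
  have hgφ : g φ = Mφ + od h φ := by
    have := hg1 φ
    rw [hMφ]; unfold od; linarith
  -- difference of M
  have hMM : Mφ ^ 2 - Mθ ^ 2 = ev h φ ^ 2 - ev h θ ^ 2 := by
    rw [hMφ, hMθ, hg2 φ, hg2 θ]; unfold ev; ring
  have hMdiff : Mφ - Mθ ≤ ε / 4 * |δ| := by
    have l1 := evsq_lip hr hlow hup hlip φ θ
    rw [← hMM, show φ - θ = δ by rw [hφ]; ring] at l1
    have l2 := (abs_le.1 l1).2
    have l3 : (Mφ - Mθ) * (Mφ + Mθ) ≤ 2 * R ^ 2 * |δ| := by linarith [l2]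
    by_contra hcon
    push Not at hcon
    have l4 : 0 ≤ ε / 4 * |δ| := by positivity
    have l5 : 0 < Mφ - Mθ := lt_of_le_of_lt l4 hcon
    have l6 : (ε / 4 * |δ|) * Mθ ≤ 2 * R ^ 2 * |δ| := by
      calc (ε / 4 * |δ|) * Mθ ≤ (Mφ - Mθ) * Mθ := mul_le_mul_of_nonneg_right hcon.le hMpos.le
        _ ≤ (Mφ - Mθ) * (Mφ + Mθ) := mul_le_mul_of_nonneg_left (by linarith) l5.le
        _ ≤ _ := l3
    have l7 : 2 * R ^ 2 < ε / 4 * Mθ := by
      have : 8 * R ^ 2 / ε < Mθ := by linarith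
      rw [div_lt_iff₀ hε] at this
      linarith
    rcases eq_or_lt_of_le (abs_nonneg δ) with h0 | h0
    · rw [← h0] at l3 l4
      have : 0 < (Mφ - Mθ) * (Mφ + Mθ) := mul_pos l5 (by linarith)
      linarith
    · have : 2 * R ^ 2 * |δ| < ε / 4 * Mθ * |δ| := mul_lt_mul_of_pos_right l7 h0
      linarith
  have hc : (1 - cos δ) * Mθ ≤ ε / 4 * |δ| := by
    have c1 := Real.one_sub_sq_div_two_le_cos (x := δ)
    have c2 : 1 - cos δ ≤ |δ| ^ 2 / 2 := by rw [sq_abs]; linarith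
    calc (1 - cos δ) * Mθ ≤ (|δ| ^ 2 / 2) * Mθ := mul_le_mul_of_nonneg_right c2 hMpos.le
      _ = (|δ| * (2 * Mθ)) / 4 * |δ| := by ring
      _ ≤ ε / 4 * |δ| := by
        apply mul_le_mul_of_nonneg_right _ (abs_nonneg _)
        have : |δ| * (2 * Mθ) ≤ |δ| * (2 * (Mθ + 1)) :=
          mul_le_mul_of_nonneg_left (by linarith) (abs_nonneg _)
        linarith
  have hsn : -(ε / 4 * |δ|) ≤ sin δ * (p s - od h (θ + π / 2)) := by
    have : |sin δ * (p s - od h (θ + π / 2))| ≤ |δ| * (ε / 4) := by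
      rw [abs_mul]
      exact mul_le_mul Real.abs_sin_le_abs ha.le (abs_nonneg _) (abs_nonneg _)
    have := (abs_le.1 this).1
    linarith
  have hfin : cos δ * g θ + sin δ * p s ≤ g φ := k
  rw [hgθ, hgφ] at hfin
  have : 0 ≤ ε / 4 * |δ| := by positivity
  nlinarith

theorem odd_deriv (hr : 0 < r) (hlow : ∀ θ, r ≤ h θ) (hup : ∀ θ, h θ ≤ R)
    (hlip : ∀ θ φ, |h θ - h φ| ≤ R * |θ - φ|) (hper : ∀ θ, h (θ + 2 * π) = h θ)
    (hs1 : s1 < π / 2) (lev : Lev h s1) (hs1' : 0 ≤ s1) (hcont : Continuous h)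
    (θ : ℝ) : HasDerivAt (od h) (od h (θ + π / 2)) θ := by
  set F : ℝ → ℝ := fun φ => od h φ - cos (φ - θ) * od h θ - sin (φ - θ) * od h (θ + π / 2) with hF
  have hF0 : HasDerivAt F 0 θ := by
    rw [hasDerivAt_iff_isLittleO, Asymptotics.isLittleO_iff]
    intro ε hε
    obtain ⟨η1, hη1, h1⟩ := odd_est hr hlow hup hlip hper hs1 lev hs1' hcont θ hε
    obtain ⟨η2, hη2, h2⟩ := odd_est hr hlow hup hlip hper hs1 lev hs1' hcont (θ + π) hε
    rw [Metric.eventually_nhds_iff]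
    refine ⟨min η1 η2, lt_min hη1 hη2, ?_⟩
    intro φ hφ
    rw [Real.dist_eq] at hφ
    have a1 := h1 (φ - θ) (lt_of_lt_of_le hφ (min_le_left _ _))
    have a2 := h2 (φ - θ) (lt_of_lt_of_le hφ (min_le_right _ _))
    rw [show θ + (φ - θ) = φ by ring] at a1
    rw [show θ + π + (φ - θ) = φ + π by ring, od_add_pi hper, od_add_pi hper,
      show θ + π + π / 2 = θ + π / 2 + π by ring, od_add_pi hper] at a2
    have hFθ : F θ = 0 := by simp [hF]
    simp only [smul_zero, sub_zero, Real.norm_eq_abs, hFθ]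
    rw [abs_le]
    constructor
    · simpa only [hF] using a1
    · simp only [hF]; linarith
  have h2 : HasDerivAt (fun φ => F φ + (cos (φ - θ) * od h θ + sin (φ - θ) * od h (θ + π / 2)))
      (0 + ((-sin (θ - θ)) * od h θ + (cos (θ - θ)) * od h (θ + π / 2))) θ := by
    apply hF0.add
    apply HasDerivAt.add
    · apply HasDerivAt.mul_const
      exact (Real.hasDerivAt_cos (θ - θ)).comp_sub_const θ θ
    · apply HasDerivAt.mul_const
      exact (Real.hasDerivAt_sin (θ - θ)).comp_sub_const θ θ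
  have e : (fun φ => F φ + (cos (φ - θ) * od h θ + sin (φ - θ) * od h (θ + π / 2))) = od h := by
    funext φ; simp only [hF]; ring
  rw [e] at h2
  simpa using h2

theorem odd_form (hr : 0 < r) (hlow : ∀ θ, r ≤ h θ) (hup : ∀ θ, h θ ≤ R)
    (hlip : ∀ θ φ, |h θ - h φ| ≤ R * |θ - φ|) (hper : ∀ θ, h (θ + 2 * π) = h θ)
    (hs1 : s1 < π / 2) (lev : Lev h s1) (hs1' : 0 ≤ s1) (hcont : Continuous h) :
    ∃ a b : ℝ, ∀ θ, od h θ = a * cos θ + b * sin θ := by
  have hd := odd_deriv hr hlow hup hlip hper hs1 lev hs1' hcont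
  have hd2 : ∀ θ, HasDerivAt (fun t => od h (t + π / 2)) (- od h θ) θ := by
    intro θ
    have := (hd (θ + π / 2)).comp_add_const θ (π / 2)
    rw [show θ + π / 2 + π / 2 = θ + π by ring, od_add_pi hper] at this
    exact this
  have hu : ∀ θ, HasDerivAt (fun t => od h t * cos t - od h (t + π / 2) * sin t) 0 θ := by
    intro θ
    have := ((hd θ).mul (Real.hasDerivAt_cos θ)).sub ((hd2 θ).mul (Real.hasDerivAt_sin θ))
    exact this.congr_deriv (by ring)
  have hv : ∀ θ, HasDerivAt (fun t => od h t * sin t + od h (t + π / 2) * cos t) 0 θ := by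
    intro θ
    have := ((hd θ).mul (Real.hasDerivAt_sin θ)).add ((hd2 θ).mul (Real.hasDerivAt_cos θ))
    exact this.congr_deriv (by ring)
  have hu' : ∀ θ, od h θ * cos θ - od h (θ + π / 2) * sin θ
      = od h 0 * cos 0 - od h (0 + π / 2) * sin 0 := fun θ =>
    is_const_of_deriv_eq_zero (fun t => (hu t).differentiableAt) (fun t => (hu t).deriv) θ 0
  have hv' : ∀ θ, od h θ * sin θ + od h (θ + π / 2) * cos θ
      = od h 0 * sin 0 + od h (0 + π / 2) * cos 0 := fun θ =>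
    is_const_of_deriv_eq_zero (fun t => (hv t).differentiableAt) (fun t => (hv t).deriv) θ 0
  refine ⟨od h 0 * cos 0 - od h (0 + π / 2) * sin 0, od h 0 * sin 0 + od h (0 + π / 2) * cos 0, ?_⟩
  intro θ
  rw [← hu' θ, ← hv' θ]
  have := Real.sin_sq_add_cos_sq θ
  linear_combination (- od h θ) * this

end Pool.Agent.Run7.h345.Ell
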